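import Pool.Agent.Q296.TreeCov

/-!
# MP_3e3c2c_co, Q1: no such constant `K` exists

For every `δ` and every large prime `p`, `tc_{2p+1}(δ) > p²`; hence
`tc_r(δ) ≤ K r ⌈r / log(1/δ)⌉` fails for every `K`.
-/

namespace Pool.Agent.Results.MP_3e3c2c_co.QuadraticTreeCovers

open Filter

/-- `H` is a monochromatic tree: a tree all of whose edges have the same colour (the edge colouring
is given as a function on unordered pairs, of which only the values on edges matter; a single vertex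
is a monochromatic tree). -/
def IsMonoTree {n r : ℕ} {G : SimpleGraph (Fin n)} (χ : Sym2 (Fin n) → Fin r)
    (H : G.Subgraph) : Prop :=
  H.coe.IsTree ∧ ∀ e ∈ H.edgeSet, ∀ e' ∈ H.edgeSet, χ e = χ e'

/-- `tc(G)`: the least number of monochromatic trees covering all vertices. -/
noncomputable def tc {n r : ℕ} (G : SimpleGraph (Fin n)) (χ : Sym2 (Fin n) → Fin r) : ℕ :=
  sInf {k | ∃ T : Fin k → G.Subgraph, (∀ t, IsMonoTree χ (T t)) ∧ ∀ v, ∃ t, v ∈ (T t).verts}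

/-- minimum degree at least `(1 - δ) n` -/
def MinDeg {n : ℕ} (G : SimpleGraph (Fin n)) (δ : ℝ) : Prop :=
  ∀ v, (1 - δ) * n ≤ ((G.neighborSet v).ncard : ℝ)

/-- `tc_r(δ)`: the limsup over `n` of the maximum of `tc(G)` over the `r`-edge-coloured graphs on
`n` vertices with minimum degree at least `(1 - δ) n`, as an extended nonnegative real. -/
noncomputable def tcr (r : ℕ) (δ : ℝ) : ENNReal :=
  limsup (fun n : ℕ => ⨆ (G : SimpleGraph (Fin n)) (χ : Sym2 (Fin n) → Fin r)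
    (_ : MinDeg G δ), (tc G χ : ENNReal)) atTop

/-- a tree cover by single vertices exists, so the infimum is attained -/
lemma tc_spec {n r : ℕ} (G : SimpleGraph (Fin n)) (χ : Sym2 (Fin n) → Fin r) :
    ∃ T : Fin (tc G χ) → G.Subgraph, (∀ t, IsMonoTree χ (T t)) ∧ ∀ v, ∃ t, v ∈ (T t).verts := by
  have hne : {k | ∃ T : Fin k → G.Subgraph, (∀ t, IsMonoTree χ (T t)) ∧
      ∀ v, ∃ t, v ∈ (T t).verts}.Nonempty := by
    refine ⟨n, fun v => G.singletonSubgraph v, ?_, ?_⟩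
    · intro v
      refine ⟨?_, ?_⟩
      · have h1 : Subsingleton (G.singletonSubgraph v).verts := by
          constructor
          rintro ⟨a, ha⟩ ⟨b, hb⟩
          simp only [SimpleGraph.singletonSubgraph_verts, Set.mem_singleton_iff] at ha hb
          exact Subtype.ext (ha.trans hb.symm)
        have h2 : Nonempty (G.singletonSubgraph v).verts := ⟨⟨v, by simp⟩⟩
        exact SimpleGraph.IsTree.of_subsingleton
      · intro e he
        simp at he
    · intro v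
      exact ⟨v, by simp⟩
  exact Nat.sInf_mem hne

theorem lower {δ : ℝ} (hδ : 0 < δ) : ∃ p0 : ℕ, ∀ p : ℕ, p.Prime → p0 ≤ p →
    ((p ^ 2 + 1 : ℕ) : ENNReal) ≤ tcr (2 * p + 1) δ := by
  obtain ⟨p0, h⟩ := Pool.Agent.Q296.TreeCov.exists_graph hδ
  refine ⟨p0, fun p hp hpp => ?_⟩
  apply le_limsup_of_frequently_le'
  rw [frequently_atTop]
  intro n0
  obtain ⟨n, hn, G, χ, hdeg, hcov⟩ := h p hp hpp n0
  refine ⟨n, hn, ?_⟩
  refine le_trans ?_ (le_iSup_of_le G (le_iSup_of_le χ (le_iSup_of_le hdeg le_rfl)))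
  obtain ⟨T, hT, hTv⟩ := tc_spec G χ
  have hlt := hcov (tc G χ) T (fun t => ⟨(hT t).1.1.preconnected⟩) ?_ hTv
  · exact_mod_cast hlt
  · intro t
    by_cases he : ∃ e, e ∈ (T t).edgeSet
    · obtain ⟨e, he⟩ := he
      exact ⟨χ e, fun e' he' => (hT t).2 e' he' e he⟩
    · push Not at he
      exact ⟨0, fun e' he' => absurd he' (he e')⟩

/-- **Disproof of Q1.** For every `δ ∈ (0,1)` and every large prime `p`, `tc_{2p+1}(δ) ≥ p² + 1`;
and for every `K > 0` there are `r ≥ 2` and `δ ∈ (0,1)` with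
`tc_r(δ) > K r ⌈r / log (1/δ)⌉`. -/
theorem result :
    (∀ δ : ℝ, 0 < δ → δ < 1 → ∃ p0 : ℕ, ∀ p : ℕ, p.Prime → p0 ≤ p →
      ((p ^ 2 + 1 : ℕ) : ENNReal) ≤ tcr (2 * p + 1) δ) ∧
    ∀ K : ℝ, 0 < K → ∃ r : ℕ, 2 ≤ r ∧ ∃ δ : ℝ, 0 < δ ∧ δ < 1 ∧
      ENNReal.ofReal (K * r * (⌈(r : ℝ) / Real.log (1 / δ)⌉ : ℝ)) < tcr r δ := by
  refine ⟨fun δ hδ _ => lower hδ, fun K hK => ?_⟩
  obtain ⟨δ, hδ0, hδ1, P0, hnum⟩ := Pool.Agent.Q296.TreeCov.numeric hK
  obtain ⟨p0, hp0⟩ := lower hδ0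
  obtain ⟨p, hpge, hp⟩ := Nat.exists_infinite_primes (max p0 P0)
  refine ⟨2 * p + 1, ?_, δ, hδ0, by linarith, ?_⟩
  · have := hp.two_le
    omega
  · refine lt_of_lt_of_le ?_ (hp0 p hp (le_trans (le_max_left _ _) hpge))
    have h1 := hnum p (le_trans (le_max_right _ _) hpge)
    rw [← ENNReal.ofReal_natCast]
    exact (ENNReal.ofReal_lt_ofReal_iff (by positivity)).mpr h1

end Pool.Agent.Results.MP_3e3c2c_co.QuadraticTreeCovers
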